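import Pool.Agent.Helper65.B54.Defs
import Pool.Agent.Helper65.B54.Ends
import Pool.Agent.Helper5.B54v2.Cover

set_option autoImplicit false

open Pool.Agent.Helper65.B54

namespace Pool.Agent.Results.MP_0881d4_co.BookFiveFour

/-- **The Turán density of the book `B_{5,4}` is `216/625`**: if `ex 5 (book 5 4) n` is the largest
number of edges of a `5`-graph on `n` vertices that contains no copy of `B_{5,4}`, then
`ex 5 (book 5 4) n / (n choose 5)` tends to `216/625` as `n` tends to infinity. -/
theorem result :
    Filter.Tendsto (fun n : ℕ => (ex 5 (book 5 4) n : ℝ) / (n.choose 5 : ℝ)) Filter.atTop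
      (nhds (216 / 625)) :=
  turan_of_middle Pool.Agent.Helper5.B54.MM2
    (by unfold Pool.Agent.Helper5.B54.MM2; norm_num)
    (fun α γ h1 h2 h3 h4 h5 => Pool.Agent.Helper5.B54.cells_cover α γ h1 h2 h3 h4 h5)

end Pool.Agent.Results.MP_0881d4_co.BookFiveFour
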